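import Mathlib

set_option autoImplicit false

open Set Filter Topology

namespace Pool.Agent.Q100.CT

/-- An alternating bilinear map on a real inner product space, of norm at most one, whose values span. -/
structure Form (V Z : Type) [NormedAddCommGroup V] [InnerProductSpace ℝ V]
    [NormedAddCommGroup Z] [NormedSpace ℝ Z] where
  b : V →ₗ[ℝ] V →ₗ[ℝ] Z
  alt : ∀ v, b v v = 0
  bd : ∀ v w, ‖b v w‖ ≤ ‖v‖ * ‖w‖
  gen : Submodule.span ℝ {z | ∃ v w, b v w = z} = ⊤

section general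

variable {V Z V' Z' : Type} [NormedAddCommGroup V] [InnerProductSpace ℝ V]
  [NormedAddCommGroup Z] [NormedSpace ℝ Z] [NormedAddCommGroup V'] [InnerProductSpace ℝ V']
  [NormedAddCommGroup Z'] [NormedSpace ℝ Z']

/-- The group law of the step two group of the form. The neutral element is `0`, the inverse is `-x`. -/
noncomputable def mul (B : Form V Z) (x y : V × Z) : V × Z :=
  (x.1 + y.1, x.2 + y.2 + (1 / 2 : ℝ) • B.b x.1 y.1)

/-- The homogeneous norm. -/
noncomputable def nrm (x : V × Z) : ℝ := max ‖x.1‖ (√‖x.2‖)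

/-- The left invariant distance. -/
noncomputable def rho (B : Form V Z) (x y : V × Z) : ℝ := nrm (mul B (-x) y)

/-- The dilations. -/
noncomputable def dil (r : ℝ) (x : V × Z) : V × Z := (r • x.1, r ^ 2 • x.2)

theorem b_neg (B : Form V Z) (v w : V) : B.b v w = -B.b w v := by
  have h := B.alt (v + w)
  simp only [map_add, LinearMap.add_apply, B.alt, zero_add, add_zero] at h
  exact eq_neg_of_add_eq_zero_right h

@[simp] theorem mul_fst (B : Form V Z) (x y : V × Z) : (mul B x y).1 = x.1 + y.1 := rfl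
@[simp] theorem mul_snd (B : Form V Z) (x y : V × Z) :
    (mul B x y).2 = x.2 + y.2 + (1 / 2 : ℝ) • B.b x.1 y.1 := rfl
@[simp] theorem dil_fst (r : ℝ) (x : V × Z) : (dil r x).1 = r • x.1 := rfl
@[simp] theorem dil_snd (r : ℝ) (x : V × Z) : (dil r x).2 = r ^ 2 • x.2 := rfl

theorem mulA (B : Form V Z) (x y z : V × Z) : mul B (mul B x y) z = mul B x (mul B y z) := by
  apply Prod.ext
  · simp [add_assoc]
  · simp only [mul_snd, mul_fst, map_add, LinearMap.add_apply, smul_add]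
    module

@[simp] theorem zmul (B : Form V Z) (x : V × Z) : mul B 0 x = x := by
  apply Prod.ext <;> simp

@[simp] theorem mulz (B : Form V Z) (x : V × Z) : mul B x 0 = x := by
  apply Prod.ext <;> simp

@[simp] theorem nmul_self (B : Form V Z) (x : V × Z) : mul B (-x) x = 0 := by
  apply Prod.ext <;> simp [B.alt]

@[simp] theorem muln_self (B : Form V Z) (x : V × Z) : mul B x (-x) = 0 := by
  apply Prod.ext <;> simp [B.alt]

@[simp] theorem nmul_cancel (B : Form V Z) (x y : V × Z) : mul B (-x) (mul B x y) = y := by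
  rw [← mulA, nmul_self, zmul]

@[simp] theorem muln_cancel (B : Form V Z) (x y : V × Z) : mul B x (mul B (-x) y) = y := by
  rw [← mulA, muln_self, zmul]

theorem nmul (B : Form V Z) (x y : V × Z) : -(mul B x y) = mul B (-y) (-x) := by
  apply Prod.ext
  · simp [add_comm]
  · simp only [Prod.snd_neg, Prod.fst_neg, mul_snd, map_neg, LinearMap.neg_apply, neg_neg]
    rw [b_neg B y.1 x.1]
    module

theorem dil_mul (B : Form V Z) (r : ℝ) (x y : V × Z) :
    dil r (mul B x y) = mul B (dil r x) (dil r y) := by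
  apply Prod.ext
  · simp
  · simp only [dil_snd, mul_snd, dil_fst, map_smul, LinearMap.smul_apply, smul_add, smul_smul]
    congr 2; ring

@[simp] theorem dil_neg (r : ℝ) (x : V × Z) : dil r (-x) = -(dil r x) := by
  apply Prod.ext <;> simp

@[simp] theorem dil_zero (r : ℝ) : dil r (0 : V × Z) = 0 := by
  apply Prod.ext <;> simp

@[simp] theorem dil_one (x : V × Z) : dil 1 x = x := by
  apply Prod.ext <;> simp

theorem dil_dil (r s : ℝ) (x : V × Z) : dil r (dil s x) = dil (r * s) x := by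
  apply Prod.ext <;> simp [smul_smul, mul_pow]

omit [InnerProductSpace ℝ V] [NormedSpace ℝ Z] in
theorem nrm_nonneg (x : V × Z) : 0 ≤ nrm x := le_max_of_le_left (norm_nonneg _)

omit [InnerProductSpace ℝ V] [NormedSpace ℝ Z] in
theorem norm_fst_le (x : V × Z) : ‖x.1‖ ≤ nrm x := le_max_left _ _

omit [InnerProductSpace ℝ V] [NormedSpace ℝ Z] in
theorem norm_snd_le (x : V × Z) : ‖x.2‖ ≤ nrm x ^ 2 := by
  have h : √‖x.2‖ ≤ nrm x := le_max_right _ _
  calc ‖x.2‖ = √‖x.2‖ ^ 2 := (Real.sq_sqrt (norm_nonneg _)).symm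
    _ ≤ nrm x ^ 2 := by
      apply pow_le_pow_left₀ (Real.sqrt_nonneg _) h

omit [InnerProductSpace ℝ V] [NormedSpace ℝ Z] in
theorem nrm_le_iff {x : V × Z} {r : ℝ} (hr : 0 ≤ r) : nrm x ≤ r ↔ ‖x.1‖ ≤ r ∧ ‖x.2‖ ≤ r ^ 2 := by
  unfold nrm
  rw [max_le_iff, Real.sqrt_le_left hr]

omit [InnerProductSpace ℝ V] [NormedSpace ℝ Z] in
@[simp] theorem nrm_zero : nrm (0 : V × Z) = 0 := by simp [nrm]

omit [InnerProductSpace ℝ V] [NormedSpace ℝ Z] in
theorem nrm_eq_zero {x : V × Z} (h : nrm x = 0) : x = 0 := by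
  have h1 := norm_fst_le x
  have h2 := norm_snd_le x
  rw [h] at h1 h2
  apply Prod.ext
  · exact norm_le_zero_iff.mp h1
  · apply norm_le_zero_iff.mp
    simpa using h2

omit [InnerProductSpace ℝ V] [NormedSpace ℝ Z] in
@[simp] theorem nrm_neg (x : V × Z) : nrm (-x) = nrm x := by simp [nrm]

theorem nrm_dil (r : ℝ) (x : V × Z) : nrm (dil r x) = |r| * nrm x := by
  unfold nrm
  rw [mul_max_of_nonneg _ _ (abs_nonneg r)]
  simp only [dil_fst, dil_snd, norm_smul, norm_pow, Real.norm_eq_abs]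
  rw [Real.sqrt_mul (by positivity), Real.sqrt_sq (abs_nonneg r)]

theorem nrm_mul_le (B : Form V Z) (x y : V × Z) : nrm (mul B x y) ≤ nrm x + nrm y := by
  have hx := nrm_nonneg x
  have hy := nrm_nonneg y
  rw [nrm_le_iff (by positivity)]
  constructor
  · calc ‖x.1 + y.1‖ ≤ ‖x.1‖ + ‖y.1‖ := norm_add_le _ _
      _ ≤ _ := add_le_add (norm_fst_le x) (norm_fst_le y)
  · have h1 : ‖B.b x.1 y.1‖ ≤ nrm x * nrm y :=
      (B.bd _ _).trans (mul_le_mul (norm_fst_le x) (norm_fst_le y) (norm_nonneg _) hx)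
    calc ‖x.2 + y.2 + (1 / 2 : ℝ) • B.b x.1 y.1‖
        ≤ ‖x.2‖ + ‖y.2‖ + ‖(1 / 2 : ℝ) • B.b x.1 y.1‖ :=
          (norm_add_le _ _).trans (by gcongr; exact norm_add_le _ _)
      _ ≤ nrm x ^ 2 + nrm y ^ 2 + (1 / 2) * (nrm x * nrm y) := by
          rw [norm_smul]
          have := norm_snd_le x
          have := norm_snd_le y
          have h3 : ‖(1 / 2 : ℝ)‖ = 1 / 2 := by norm_num
          rw [h3]
          gcongr
      _ ≤ (nrm x + nrm y) ^ 2 := by nlinarith [mul_nonneg hx hy]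

theorem rho_nonneg (B : Form V Z) (x y : V × Z) : 0 ≤ rho B x y := nrm_nonneg _

@[simp] theorem rho_self (B : Form V Z) (x : V × Z) : rho B x x = 0 := by simp [rho]

theorem rho_comm (B : Form V Z) (x y : V × Z) : rho B x y = rho B y x := by
  unfold rho
  rw [← nrm_neg, nmul, neg_neg]

theorem rho_tri (B : Form V Z) (x y z : V × Z) : rho B x z ≤ rho B x y + rho B y z := by
  have h : mul B (-x) z = mul B (mul B (-x) y) (mul B (-y) z) := by
    rw [mulA, muln_cancel]
  unfold rho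
  rw [h]
  exact nrm_mul_le B _ _

theorem rho_left (B : Form V Z) (g x y : V × Z) : rho B (mul B g x) (mul B g y) = rho B x y := by
  unfold rho
  rw [nmul, mulA, nmul_cancel]

theorem rho_dil (B : Form V Z) (r : ℝ) (x y : V × Z) :
    rho B (dil r x) (dil r y) = |r| * rho B x y := by
  unfold rho
  rw [← nrm_dil, dil_mul, dil_neg]

@[simp] theorem rho_zero (B : Form V Z) (x : V × Z) : rho B 0 x = nrm x := by simp [rho]

theorem eq_of_rho (B : Form V Z) {x y : V × Z} (h : rho B x y = 0) : x = y := by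
  have h1 := nrm_eq_zero h
  calc x = mul B x 0 := by simp
    _ = mul B x (mul B (-x) y) := by rw [h1]
    _ = y := by simp

theorem rho_mul_right (B : Form V Z) (x g : V × Z) : rho B x (mul B x g) = nrm g := by
  unfold rho; rw [nmul_cancel]

theorem cont_b (B : Form V Z) : Continuous (fun p : V × V => B.b p.1 p.2) := by
  have : IsBoundedBilinearMap ℝ (fun p : V × V => B.b p.1 p.2) :=
    { add_left := fun x y z => by simp
      smul_left := fun c x y => by simp
      add_right := fun x y z => by simp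
      smul_right := fun c x y => by simp
      bound := ⟨1, one_pos, fun x y => by simpa using B.bd x y⟩ }
  exact this.continuous

theorem cont_mul (B : Form V Z) : Continuous (fun p : (V × Z) × (V × Z) => mul B p.1 p.2) := by
  unfold mul
  apply Continuous.prodMk
  · fun_prop
  · apply Continuous.add
    · fun_prop
    · apply Continuous.const_smul
      exact (cont_b B).comp (by fun_prop : Continuous (fun p : (V × Z) × (V × Z) => (p.1.1, p.2.1)))

omit [InnerProductSpace ℝ V] [NormedSpace ℝ Z] in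
theorem cont_nrm : Continuous (fun p : V × Z => nrm p) := by
  unfold nrm
  fun_prop

theorem cont_dil (r : ℝ) : Continuous (fun p : V × Z => dil r p) := by
  unfold dil
  fun_prop

theorem cont_rho (B : Form V Z) : Continuous (fun p : (V × Z) × (V × Z) => rho B p.1 p.2) := by
  unfold rho
  exact cont_nrm.comp ((cont_mul B).comp
    (by fun_prop : Continuous (fun p : (V × Z) × (V × Z) => (-p.1, p.2))))

/-- Left translation through zero, dilation and pointwise limits: a class closed under them. -/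
structure IsCls (B : Form V Z) (B' : Form V' Z') (C : Set (V × Z → V' × Z')) : Prop where
  ne : C.Nonempty
  tr : ∀ F ∈ C, ∀ g, (fun x => mul B' (-(F g)) (F (mul B g x))) ∈ C
  di : ∀ F ∈ C, ∀ r : ℝ, 0 < r → (fun x => dil r⁻¹ (F (dil r x))) ∈ C
  li : ∀ (F : ℕ → V × Z → V' × Z') (G : V × Z → V' × Z'), (∀ n, F n ∈ C) →
    (∀ x, Tendsto (fun n => F n x) (hyperfilter ℕ : Filter ℕ) (𝓝 (G x))) → G ∈ C
  bd : ∃ K : ℝ, 0 ≤ K ∧ ∀ F ∈ C, ∀ x, nrm (F x) ≤ K * nrm x

/-- Normalised bilipschitz maps. -/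
def Cls (B : Form V Z) (B' : Form V' Z') (K : ℝ) : Set (V × Z → V' × Z') :=
  {F | F 0 = 0 ∧ ∀ x y, K⁻¹ * rho B x y ≤ rho B' (F x) (F y) ∧ rho B' (F x) (F y) ≤ K * rho B x y}

end general

/-- Closeness in a quotient of a free group: `v` equals `u * w` modulo `N` with `w` short. -/
def Cl {n : ℕ} (N : Subgroup (FreeGroup (Fin n))) (r : ℕ) (u v : FreeGroup (Fin n)) : Prop :=
  ∃ w : FreeGroup (Fin n), w.norm ≤ r ∧ v⁻¹ * u * w ∈ N

section cl
variable {n : ℕ} {N : Subgroup (FreeGroup (Fin n))}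

theorem Cl.mono {r s : ℕ} {u v : FreeGroup (Fin n)} (h : Cl N r u v) (hrs : r ≤ s) : Cl N s u v := by
  obtain ⟨w, h1, h2⟩ := h
  exact ⟨w, h1.trans hrs, h2⟩

theorem Cl.refl (r : ℕ) (u : FreeGroup (Fin n)) : Cl N r u u :=
  ⟨1, by simp, by simp⟩

theorem Cl.symm (hN : N.Normal) {r : ℕ} {u v : FreeGroup (Fin n)} (h : Cl N r u v) : Cl N r v u := by
  obtain ⟨w, h1, h2⟩ := h
  refine ⟨w⁻¹, by simpa using h1, ?_⟩
  have h3 := hN.conj_mem _ (N.inv_mem h2) w
  have h4 : w * (v⁻¹ * u * w)⁻¹ * w⁻¹ = u⁻¹ * v * w⁻¹ := by group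
  rwa [h4] at h3

theorem Cl.trans (hN : N.Normal) {r s : ℕ} {u v t : FreeGroup (Fin n)} (h : Cl N r u v)
    (h' : Cl N s v t) : Cl N (r + s) u t := by
  obtain ⟨w, h1, h2⟩ := h
  obtain ⟨w', h1', h2'⟩ := h'
  refine ⟨w * w', (FreeGroup.norm_mul_le _ _).trans (by omega), ?_⟩
  have h3 := hN.conj_mem _ h2 w'⁻¹
  have h4 := N.mul_mem h2' h3
  have h5 : t⁻¹ * v * w' * (w'⁻¹ * (v⁻¹ * u * w) * w'⁻¹⁻¹) = t⁻¹ * u * (w * w') := by group
  rwa [h5] at h4

end cl

/-- Quasi-isometry between the group of the form and the quotient of a free group by `N`. -/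
def QI {V Z : Type} [NormedAddCommGroup V] [InnerProductSpace ℝ V]
    [NormedAddCommGroup Z] [NormedSpace ℝ Z] (B : Form V Z) (n : ℕ)
    (N : Subgroup (FreeGroup (Fin n))) : Prop :=
  ∃ (h : V × Z → FreeGroup (Fin n)) (f : FreeGroup (Fin n) → V × Z) (K : ℕ), 1 ≤ K ∧
    (∀ (r : ℕ) (x y : V × Z), rho B x y ≤ r → Cl N (K * r + K) (h x) (h y)) ∧
    (∀ (r : ℕ) (u v : FreeGroup (Fin n)), Cl N r u v → rho B (f u) (f v) ≤ K * r + K) ∧
    (∀ u, Cl N K (h (f u)) u) ∧ (∀ x, rho B (f (h x)) x ≤ K)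

/-- The horizontal space, eight dimensional. -/
abbrev VV : Type := EuclideanSpace ℝ (Fin 4 × Fin 2)

/-- The centre, two dimensional with the supremum norm. -/
abbrev ZZ : Type := Fin 2 → ℝ

/-- Four points of the centre. -/
noncomputable def xi (θ : ℝ) : Fin 4 → ZZ := ![![1, 0], ![0, 1], ![1 / 2, 1 / 2], ![θ, 1 / 2]]

/-- The four symplectic forms. -/
noncomputable def om (i : Fin 4) (p q : VV) : ℝ := p (i, 0) * q (i, 1) - p (i, 1) * q (i, 0)

/-- The bilinear map of the parameter. -/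
noncomputable def bb (θ : ℝ) : VV →ₗ[ℝ] VV →ₗ[ℝ] ZZ :=
  LinearMap.mk₂ ℝ (fun p q => ∑ i, om i p q • xi θ i)
    (by intro p p' q; simp only [om, PiLp.add_apply, ← Finset.sum_add_distrib, ← add_smul]
        refine Finset.sum_congr rfl fun i _ => ?_
        congr 1; ring)
    (by intro c p q; simp only [om, PiLp.smul_apply, smul_eq_mul, Finset.smul_sum, smul_smul]
        refine Finset.sum_congr rfl fun i _ => ?_
        congr 1; ring)
    (by intro p q q'; simp only [om, PiLp.add_apply, ← Finset.sum_add_distrib, ← add_smul]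
        refine Finset.sum_congr rfl fun i _ => ?_
        congr 1; ring)
    (by intro c p q; simp only [om, PiLp.smul_apply, smul_eq_mul, Finset.smul_sum, smul_smul]
        refine Finset.sum_congr rfl fun i _ => ?_
        congr 1; ring)

@[simp] theorem bb_apply (θ : ℝ) (p q : VV) : bb θ p q = ∑ i, om i p q • xi θ i := rfl

theorem bb_alt (θ : ℝ) (v : VV) : bb θ v v = 0 := by
  rw [bb_apply]
  apply Finset.sum_eq_zero
  intro i _
  have : om i v v = 0 := by unfold om; ring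
  rw [this, zero_smul]

theorem xi_norm (θ : ℝ) (h : θ ∈ Ioo (0 : ℝ) (1 / 2)) (i : Fin 4) : ‖xi θ i‖ ≤ 1 := by
  obtain ⟨h0, h1⟩ := h
  rw [pi_norm_le_iff_of_nonneg zero_le_one]
  intro j
  fin_cases i <;> fin_cases j <;> simp [xi] <;> norm_num
  rw [abs_le]; constructor <;> linarith

/-- The block of a vector. -/
noncomputable def blk (i : Fin 4) (p : VV) : ℝ := √(p (i, 0) ^ 2 + p (i, 1) ^ 2)

theorem om_le (i : Fin 4) (p q : VV) : |om i p q| ≤ blk i p * blk i q := by
  unfold om blk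
  rw [← Real.sqrt_mul (by positivity)]
  apply Real.abs_le_sqrt
  nlinarith [sq_nonneg (p (i, 0) * q (i, 0) + p (i, 1) * q (i, 1))]

theorem norm_VV (p : VV) : ‖p‖ = √(∑ i, blk i p ^ 2) := by
  rw [EuclideanSpace.norm_eq]
  congr 1
  rw [Fintype.sum_prod_type]
  refine Finset.sum_congr rfl fun i _ => ?_
  unfold blk
  rw [Real.sq_sqrt (by positivity), Fin.sum_univ_two]
  simp

theorem bb_bd (θ : ℝ) (h : θ ∈ Ioo (0 : ℝ) (1 / 2)) (v w : VV) : ‖bb θ v w‖ ≤ ‖v‖ * ‖w‖ := by
  rw [bb_apply]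
  calc ‖∑ i, om i v w • xi θ i‖ ≤ ∑ i, ‖om i v w • xi θ i‖ := norm_sum_le _ _
    _ ≤ ∑ i, blk i v * blk i w := by
        apply Finset.sum_le_sum
        intro i _
        rw [norm_smul, Real.norm_eq_abs]
        calc |om i v w| * ‖xi θ i‖ ≤ |om i v w| * 1 := by
              gcongr; exact xi_norm θ h i
          _ = |om i v w| := mul_one _
          _ ≤ _ := om_le i v w
    _ ≤ √(∑ i, blk i v ^ 2) * √(∑ i, blk i w ^ 2) := Real.sum_mul_le_sqrt_mul_sqrt _ _ _
    _ = ‖v‖ * ‖w‖ := by rw [← norm_VV, ← norm_VV]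

/-- A coordinate vector of the horizontal space. -/
noncomputable def ev (i : Fin 4) (j : Fin 2) : VV := EuclideanSpace.single (i, j) (1 : ℝ)

theorem om_ev (i : Fin 4) (q : VV) (k : Fin 4) : om k (ev i 0) q = if k = i then q (i, 1) else 0 := by
  unfold om ev
  by_cases h : k = i
  · subst h; simp
  · simp [h]

theorem om_ev' (i : Fin 4) (q : VV) (k : Fin 4) : om k (ev i 1) q = if k = i then -q (i, 0) else 0 := by
  unfold om ev
  by_cases h : k = i
  · subst h; simp
  · simp [h]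

theorem bb_ev (θ : ℝ) (i : Fin 4) (q : VV) : bb θ (ev i 0) q = q (i, 1) • xi θ i := by
  rw [bb_apply, Finset.sum_eq_single i]
  · rw [om_ev]; simp
  · intro k _ hk; rw [om_ev]; simp [hk]
  · simp

theorem bb_ev_ev (θ : ℝ) (i : Fin 4) : bb θ (ev i 0) (ev i 1) = xi θ i := by
  rw [bb_ev]; simp [ev]

theorem bb_gen (θ : ℝ) : Submodule.span ℝ {z | ∃ v w, bb θ v w = z} = ⊤ := by
  rw [eq_top_iff]
  intro z _
  have h : z = z 0 • xi θ 0 + z 1 • xi θ 1 := by
    ext j; fin_cases j <;> simp [xi]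
  rw [h]
  apply Submodule.add_mem
  · exact Submodule.smul_mem _ _ (Submodule.subset_span ⟨_, _, bb_ev_ev θ 0⟩)
  · exact Submodule.smul_mem _ _ (Submodule.subset_span ⟨_, _, bb_ev_ev θ 1⟩)

/-- The form of the parameter `θ`. -/
noncomputable def form (θ : ℝ) (h : θ ∈ Ioo (0 : ℝ) (1 / 2)) : Form VV ZZ :=
  ⟨bb θ, bb_alt θ, bb_bd θ h, bb_gen θ⟩

@[simp] theorem form_b (θ : ℝ) (h : θ ∈ Ioo (0 : ℝ) (1 / 2)) : (form θ h).b = bb θ := rfl

/-- Vertices. -/
abbrev PP : Type := (Fin 4 × Fin 2 → ℤ) × (Fin 2 → ℤ)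

/-- The point of a vertex. -/
noncomputable def io (a : PP) : VV × ZZ :=
  (WithLp.toLp 2 (fun i => (a.1 i : ℝ)), fun i => (a.2 i : ℝ))

/-- The graph: integer points, adjacent when at distance at most seven. -/
noncomputable def XX (B : Form VV ZZ) : SimpleGraph PP where
  Adj a b := a ≠ b ∧ rho B (io a) (io b) ≤ 7
  symm := ⟨fun a b h => ⟨h.1.symm, by rw [rho_comm]; exact h.2⟩⟩
  loopless := ⟨fun a h => h.1 rfl⟩

end Pool.Agent.Q100.CT
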