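import Pool.Agent.Q100.CT.Stm

set_option autoImplicit false

open Set Filter Topology

namespace Pool.Agent.Q100.CT

section ultra

variable {V' Z' : Type} [NormedAddCommGroup V'] [InnerProductSpace ℝ V']
  [NormedAddCommGroup Z'] [NormedSpace ℝ Z']

theorem ultra_lim [FiniteDimensional ℝ V'] [FiniteDimensional ℝ Z'] (p : ℕ → V' × Z') (R : ℝ)
    (h : ∀ n, nrm (p n) ≤ R) : ∃ q, Tendsto p (hyperfilter ℕ : Filter ℕ) (𝓝 q) := by
  have hR : 0 ≤ R := (nrm_nonneg _).trans (h 0)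
  have hc : IsCompact (Metric.closedBall (0 : V') R ×ˢ Metric.closedBall (0 : Z') (R ^ 2)) :=
    (isCompact_closedBall _ _).prod (isCompact_closedBall _ _)
  have hmem : ∀ n, p n ∈ Metric.closedBall (0 : V') R ×ˢ Metric.closedBall (0 : Z') (R ^ 2) := by
    intro n
    have := (nrm_le_iff hR).mp (h n)
    refine ⟨?_, ?_⟩
    · simpa using this.1
    · simpa using this.2
  obtain ⟨q, _, hq⟩ := hc.ultrafilter_le_nhds ((hyperfilter ℕ).map p) (by
    rw [le_principal_iff]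
    exact Filter.mem_map.mpr (Filter.mem_of_superset univ_mem (fun n _ => hmem n)))
  exact ⟨q, hq⟩

end ultra

section cls

variable {V Z V' Z' : Type} [NormedAddCommGroup V] [InnerProductSpace ℝ V]
  [NormedAddCommGroup Z] [NormedSpace ℝ Z] [NormedAddCommGroup V'] [InnerProductSpace ℝ V']
  [NormedAddCommGroup Z'] [NormedSpace ℝ Z'] {B : Form V Z} {B' : Form V' Z'}
  {C : Set (V × Z → V' × Z')}

theorem IsCls.zero (hC : IsCls B B' C) {F : V × Z → V' × Z'} (hF : F ∈ C) : F 0 = 0 := by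
  obtain ⟨K, hK, h⟩ := hC.bd
  apply nrm_eq_zero
  apply le_antisymm _ (nrm_nonneg _)
  simpa using h F hF 0

theorem IsCls.lip (hC : IsCls B B' C) : ∃ K : ℝ, 0 ≤ K ∧ (∀ F ∈ C, ∀ x, nrm (F x) ≤ K * nrm x) ∧
    ∀ F ∈ C, ∀ x y, rho B' (F x) (F y) ≤ K * rho B x y := by
  obtain ⟨K, hK, h⟩ := hC.bd
  refine ⟨K, hK, h, fun F hF x y => ?_⟩
  have h1 := h _ (hC.tr F hF x) (mul B (-x) y)
  simpa [rho] using h1

theorem abs_l_le (l : V' →ₗ[ℝ] ℝ) (L : ℝ) (hL : ∀ v, |l v| ≤ L * ‖v‖) (hL0 : 0 ≤ L)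
    (a b : V' × Z') : |l a.1 - l b.1| ≤ L * rho B' b a := by
  rw [← map_sub]
  refine (hL _).trans ?_
  apply mul_le_mul_of_nonneg_left _ hL0
  have := norm_fst_le (mul B' (-b) a)
  rw [mul_fst, Prod.fst_neg, neg_add_eq_sub] at this
  exact this

end cls

theorem ext0 : S_ext0 := by
  intro V Z V' Z' _ _ _ _ _ _ _ _ _ _ _ _ B B' C hC l
  obtain ⟨K, hK, hbd, hlip⟩ := hC.lip
  obtain ⟨L, hL0, hL⟩ : ∃ L : ℝ, 0 ≤ L ∧ ∀ v, |l v| ≤ L * ‖v‖ :=
    ⟨‖LinearMap.toContinuousLinearMap l‖, norm_nonneg _, fun v => by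
      simpa using (LinearMap.toContinuousLinearMap l).le_opNorm v⟩
  have lcont : Continuous l := l.continuous_of_finiteDimensional
  set S : Set ℝ := {a | ∃ F ∈ C, ∃ v : V, ‖v‖ = 1 ∧ l (F (v, 0)).1 = a} with hS
  set s := sSup S with hs
  have hbdd : BddAbove S := by
    refine ⟨L * K, ?_⟩
    rintro a ⟨F, hF, v, hv, rfl⟩
    calc l (F (v, 0)).1 ≤ |l (F (v, 0)).1| := le_abs_self _
      _ ≤ L * ‖(F (v, 0)).1‖ := hL _
      _ ≤ L * (K * nrm ((v, 0) : V × Z)) := by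
        gcongr
        exact (norm_fst_le _).trans (hbd F hF _)
      _ = L * K := by simp [nrm, hv]
  have hne : S.Nonempty := by
    obtain ⟨F, hF⟩ := hC.ne
    obtain ⟨v, hv⟩ := exists_norm_eq V (zero_le_one (α := ℝ))
    exact ⟨_, F, hF, v, hv, rfl⟩
  have hinc : ∀ F ∈ C, ∀ (x : V × Z) (v : V), l (F (mul B x (v, 0))).1 - l (F x).1 ≤ s * ‖v‖ := by
    intro F hF x v
    by_cases hv : v = 0
    · subst hv
      have : ((0, 0) : V × Z) = 0 := rfl
      simp [this]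
    · have hr : 0 < ‖v‖ := norm_pos_iff.mpr hv
      have h1 := hC.di _ (hC.tr F hF x) ‖v‖ hr
      have h2 : _ ≤ s := le_csSup hbdd ⟨_, h1, ‖v‖⁻¹ • v, by
        rw [norm_smul, norm_inv, norm_norm, inv_mul_cancel₀ hr.ne'], rfl⟩
      have e : dil ‖v‖ ((‖v‖⁻¹ • v, 0) : V × Z) = (v, 0) := by
        apply Prod.ext
        · simp [smul_smul, mul_inv_cancel₀ hr.ne']
        · simp
      simp only [e, dil_fst, mul_fst, Prod.fst_neg, map_smul, map_add, map_neg, smul_eq_mul] at h2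
      have h3 := mul_le_mul_of_nonneg_left h2 hr.le
      rw [← mul_assoc, mul_inv_cancel₀ hr.ne', one_mul] at h3
      linarith
  -- near maximisers
  have hex : ∀ n : ℕ, ∃ F ∈ C, ∃ v : V, ‖v‖ = 1 ∧ s - 1 / ((n : ℝ) + 1) ^ 2 < l (F (v, 0)).1 := by
    intro n
    have hlt : s - 1 / ((n : ℝ) + 1) ^ 2 < sSup S := by
      have : 0 < 1 / ((n : ℝ) + 1) ^ 2 := by positivity
      linarith
    obtain ⟨a, ⟨F, hF, v, hv, rfl⟩, h⟩ := exists_lt_of_lt_csSup hne hlt
    exact ⟨F, hF, v, hv, h⟩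
  choose F hF v hv hFv using hex
  have hline : ∀ n : ℕ, ∀ t : ℝ, 0 ≤ t → t ≤ 1 →
      l (F n (t • v n, 0)).1 ≤ s * t ∧ s * t - 1 / ((n : ℝ) + 1) ^ 2 ≤ l (F n (t • v n, 0)).1 := by
    intro n t h0 h1
    constructor
    · have h := hinc (F n) (hF n) 0 (t • v n)
      rw [zmul, hC.zero (hF n), norm_smul, hv n, mul_one, Real.norm_eq_abs, abs_of_nonneg h0] at h
      simpa using h
    · have h := hinc (F n) (hF n) (t • v n, 0) ((1 - t) • v n)
      have e : mul B (t • v n, 0) ((1 - t) • v n, 0) = ((v n, 0) : V × Z) := by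
        apply Prod.ext
        · simp only [mul_fst]; module
        · simp [B.alt]
      rw [e, norm_smul, hv n, mul_one, Real.norm_eq_abs, abs_of_nonneg (by linarith : 0 ≤ 1 - t)] at h
      have := hFv n
      linarith
  -- the rescaled maps
  set r : ℕ → ℝ := fun n => ((n : ℝ) + 1)⁻¹ with hr
  have hrpos : ∀ n, 0 < r n := fun n => by positivity
  set H : ℕ → V × Z → V' × Z' := fun n x => dil (r n)⁻¹ (mul B' (-(F n ((1 / 2 : ℝ) • v n, 0)))
    (F n (mul B ((1 / 2 : ℝ) • v n, 0) (dil (r n) x)))) with hH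
  have hHC : ∀ n, H n ∈ C := fun n => hC.di _ (hC.tr (F n) (hF n) ((1 / 2 : ℝ) • v n, 0)) (r n) (hrpos n)
  have hHl : ∀ n : ℕ, ∀ t : ℝ, |t| ≤ ((n : ℝ) + 1) / 2 →
      |l (H n (t • v n, 0)).1 - s * t| ≤ 1 / ((n : ℝ) + 1) := by
    intro n t ht
    have hn : (0 : ℝ) < (n : ℝ) + 1 := by positivity
    have hrt : |r n * t| ≤ 1 / 2 := by
      rw [abs_mul, abs_of_pos (hrpos n), hr]
      rw [inv_mul_le_iff₀ hn]
      linarith
    have hrt' := abs_le.mp hrt
    have e : mul B ((1 / 2 : ℝ) • v n, 0) (dil (r n) (t • v n, 0)) =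
        (((1 / 2 + r n * t) • v n, 0) : V × Z) := by
      apply Prod.ext
      · simp only [mul_fst, dil_fst, smul_smul]; module
      · simp [B.alt]
    have e2 : l (H n (t • v n, 0)).1 = ((n : ℝ) + 1) * (l (F n ((1 / 2 + r n * t) • v n, 0)).1 -
        l (F n ((1 / 2 : ℝ) • v n, 0)).1) := by
      simp only [hH, e, dil_fst, mul_fst, Prod.fst_neg, map_smul, map_add, map_neg, smul_eq_mul]
      rw [hr]
      simp only [inv_inv]
      ring
    obtain ⟨h1, h2⟩ := hline n (1 / 2 + r n * t) (by linarith) (by linarith)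
    obtain ⟨h3, h4⟩ := hline n (1 / 2) (by norm_num) (by norm_num)
    have e3 : s * t = ((n : ℝ) + 1) * (s * (r n * t)) := by
      rw [hr]; field_simp
    rw [e2, e3, ← mul_sub, abs_mul, abs_of_pos hn]
    have h5 : |l (F n ((1 / 2 + r n * t) • v n, 0)).1 - l (F n ((1 / 2 : ℝ) • v n, 0)).1 -
        s * (r n * t)| ≤ 1 / ((n : ℝ) + 1) ^ 2 := by
      rw [abs_le]; constructor <;> linarith
    calc ((n : ℝ) + 1) * _ ≤ ((n : ℝ) + 1) * (1 / ((n : ℝ) + 1) ^ 2) := by gcongr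
      _ = 1 / ((n : ℝ) + 1) := by field_simp
  -- limits
  obtain ⟨q, hq⟩ : ∃ q : V × ℝ, Tendsto (fun n => ((v n, (0 : ℝ)) : V × ℝ))
      (hyperfilter ℕ : Filter ℕ) (𝓝 q) :=
    ultra_lim (fun n => ((v n, (0 : ℝ)) : V × ℝ)) 1 (fun n => by simp [nrm, hv n])
  set e := q.1 with he
  have hve : Tendsto v (hyperfilter ℕ : Filter ℕ) (𝓝 e) := (continuous_fst.tendsto q).comp hq
  have hene : ‖e‖ = 1 := by
    have h1 : Tendsto (fun n => ‖v n‖) (hyperfilter ℕ : Filter ℕ) (𝓝 ‖e‖) := hve.norm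
    simp only [hv] at h1
    exact (tendsto_nhds_unique h1 tendsto_const_nhds)
  have hHlim : ∀ x, ∃ y, Tendsto (fun n => H n x) (hyperfilter ℕ : Filter ℕ) (𝓝 y) :=
    fun x => ultra_lim _ (K * nrm x) (fun n => hbd _ (hHC n) x)
  choose G hG using hHlim
  have hGC : G ∈ C := hC.li H G hHC hG
  refine ⟨G, hGC, s, e, hene, fun t => ?_, hinc G hGC⟩
  have hhyp : (hyperfilter ℕ : Filter ℕ) ≤ atTop := Nat.hyperfilter_le_atTop
  have t1 : Tendsto (fun n => l (H n (t • e, 0)).1) (hyperfilter ℕ : Filter ℕ)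
      (𝓝 (l (G (t • e, 0)).1)) :=
    ((lcont.comp continuous_fst).tendsto _).comp (hG (t • e, 0))
  have t2 : Tendsto (fun n => l (H n (t • e, 0)).1) (hyperfilter ℕ : Filter ℕ) (𝓝 (s * t)) := by
    rw [tendsto_iff_norm_sub_tendsto_zero]
    have hb : ∀ᶠ n in (hyperfilter ℕ : Filter ℕ), ‖l (H n (t • e, 0)).1 - s * t‖ ≤
        L * (K * rho B (t • v n, 0) (t • e, 0)) + 1 / ((n : ℝ) + 1) := by
      have hev : ∀ᶠ n : ℕ in atTop, |t| ≤ ((n : ℝ) + 1) / 2 := by
        obtain ⟨N, hN⟩ := exists_nat_ge (2 * |t|)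
        filter_upwards [eventually_ge_atTop N] with n hn
        have : (N : ℝ) ≤ n := by exact_mod_cast hn
        linarith
      filter_upwards [hhyp hev] with n hn
      have a1 := hHl n t hn
      have a2 := abs_l_le (B' := B') l L hL hL0 (H n (t • e, 0)) (H n (t • v n, 0))
      have a3 := hlip _ (hHC n) (t • v n, 0) (t • e, 0)
      calc ‖l (H n (t • e, 0)).1 - s * t‖
          = |(l (H n (t • e, 0)).1 - l (H n (t • v n, 0)).1) + (l (H n (t • v n, 0)).1 - s * t)| := by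
            rw [Real.norm_eq_abs]; congr 1; ring
        _ ≤ _ := (abs_add_le _ _).trans (add_le_add (a2.trans (by gcongr)) a1)
    refine squeeze_zero' (Eventually.of_forall fun n => norm_nonneg _) hb ?_
    have c1 : Tendsto (fun n => rho B (t • v n, 0) (t • e, 0)) (hyperfilter ℕ : Filter ℕ)
        (𝓝 (rho B (t • e, 0) (t • e, 0))) := by
      have hc : Continuous (fun w : V => rho B (t • w, 0) (t • e, 0)) :=
        (cont_rho B).comp (by fun_prop :
          Continuous (fun w : V => (((t • w, (0 : Z)) : V × Z), ((t • e, (0 : Z)) : V × Z))))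
      exact (hc.tendsto e).comp hve
    rw [rho_self] at c1
    have c2 : Tendsto (fun n : ℕ => 1 / ((n : ℝ) + 1)) (hyperfilter ℕ : Filter ℕ) (𝓝 0) :=
      tendsto_one_div_add_atTop_nhds_zero_nat.mono_left hhyp
    have := ((c1.const_mul K).const_mul L).add c2
    simpa using this
  exact tendsto_nhds_unique t1 t2

end Pool.Agent.Q100.CT
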