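import Pool.Agent.Q100.CT.Stm

set_option autoImplicit false

open Set Filter Topology

namespace Pool.Agent.Q100.CT

theorem rig : S_lin → S_hom → S_cls → S_rig := by
  intro hlin hhom hcls V Z V' Z' _ _ _ _ _ _ _ _ _ _ _ _ B B' Φ K C hK h
  obtain ⟨F, hF, A, hA⟩ := hlin V Z V' Z' B B' _ (hcls V Z V' Z' B B' Φ K C hK h)
  obtain ⟨hi, D, hD, hAD⟩ := hhom V Z V' Z' B B' K hK F hF A hA
  exact ⟨A, D, hi, hD, hAD⟩

theorem main : S_rig → S_alg → S_trans → S_fp → S_main := by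
  intro hrig halg htrans hfp
  by_contra hcon
  unfold S_main at hcon
  push Not at hcon
  choose n N hN hQ using hcon
  have hS : ∀ (θ : ℝ) (hθ : θ ∈ Ioo (0 : ℝ) (1 / 2)), ∃ S : Finset (FreeGroup (Fin (n θ hθ))),
      N θ hθ = Subgroup.normalClosure (S : Set (FreeGroup (Fin (n θ hθ)))) := by
    intro θ hθ
    obtain ⟨S, hS, hNS⟩ := hfp VV ZZ (form θ hθ) (n θ hθ) (N θ hθ) (hN θ hθ) (hQ θ hθ)
    exact ⟨hS.toFinset, by simpa using hNS⟩
  choose S hS using hS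
  let code : Ioo (0 : ℝ) (1 / 2) → (Σ n : ℕ, Finset (FreeGroup (Fin n))) :=
    fun θ => ⟨n θ.1 θ.2, S θ.1 θ.2⟩
  have hfib : ∀ c, (code ⁻¹' {c}).Countable := by
    intro c
    by_cases hne : (code ⁻¹' {c}).Nonempty
    · obtain ⟨θ₀, h0⟩ := hne
      have hfin := halg θ₀.1 θ₀.2
      apply Set.Finite.countable
      apply Set.Finite.of_finite_image (f := Subtype.val) _ (Subtype.val_injective.injOn)
      refine hfin.subset ?_
      rintro _ ⟨θ, hθ, rfl⟩
      refine ⟨θ.2, ?_⟩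
      have hcode : code θ₀ = code θ := by
        rw [Set.mem_preimage, Set.mem_singleton_iff] at h0 hθ
        rw [h0, hθ]
      have e1 : (⟨n θ₀.1 θ₀.2, S θ₀.1 θ₀.2⟩ : Σ n : ℕ, Finset (FreeGroup (Fin n))) =
        ⟨n θ.1 θ.2, S θ.1 θ.2⟩ := hcode
      have hq0 : QI (form θ₀.1 θ₀.2) (n θ₀.1 θ₀.2) (Subgroup.normalClosure
        (S θ₀.1 θ₀.2 : Set (FreeGroup (Fin (n θ₀.1 θ₀.2))))) := by
        rw [← hS]; exact hQ _ _
      have hq1 : QI (form θ.1 θ.2) (n θ.1 θ.2) (Subgroup.normalClosure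
        (S θ.1 θ.2 : Set (FreeGroup (Fin (n θ.1 θ.2))))) := by
        rw [← hS]; exact hQ _ _
      have hq2 : ∀ (a b : Σ n : ℕ, Finset (FreeGroup (Fin n))), a = b →
          QI (form θ.1 θ.2) b.1 (Subgroup.normalClosure (b.2 : Set (FreeGroup (Fin b.1)))) →
          QI (form θ.1 θ.2) a.1 (Subgroup.normalClosure (a.2 : Set (FreeGroup (Fin a.1)))) := by
        rintro a b rfl h; exact h
      have hq3 := hq2 _ _ e1 hq1
      obtain ⟨Φ, K, C, hK, hΦ⟩ := htrans VV ZZ VV ZZ (form θ₀.1 θ₀.2) (form θ.1 θ.2) _ _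
        Subgroup.normalClosure_normal hq0 hq3
      exact hrig VV ZZ VV ZZ (form θ₀.1 θ₀.2) (form θ.1 θ.2) Φ K C hK hΦ
    · rw [Set.not_nonempty_iff_eq_empty] at hne
      rw [hne]; exact Set.countable_empty
  have hcount : (Set.univ : Set (Ioo (0 : ℝ) (1 / 2))).Countable := by
    have : (Set.univ : Set (Ioo (0 : ℝ) (1 / 2))) = ⋃ c, code ⁻¹' {c} := by
      ext x; simp
    rw [this]
    exact Set.countable_iUnion hfib
  have h2 : (Ioo (0 : ℝ) (1 / 2)).Countable := by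
    rw [Set.countable_univ_iff] at hcount
    exact Set.countable_coe_iff.mp hcount
  have h3 := Cardinal.le_aleph0_iff_set_countable.mpr h2
  rw [Cardinal.mk_Ioo_real (by norm_num)] at h3
  exact absurd h3 (not_le.mpr Cardinal.aleph0_lt_continuum)

end Pool.Agent.Q100.CT
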