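import Pool.Agent.Q100.CT.Bas

set_option autoImplicit false

open Set Filter Topology

namespace Pool.Agent.Q100.CT

/-- Every element is a product of horizontal elements. -/
def S_word : Prop := ∀ (V Z : Type) [NormedAddCommGroup V] [InnerProductSpace ℝ V]
    [NormedAddCommGroup Z] [NormedSpace ℝ Z] (B : Form V Z) (P : V × Z → Prop), P 0 →
    (∀ (v : V) (x : V × Z), P x → P (mul B (v, 0) x)) → ∀ x, P x

/-- A horizontally `s`-Lipschitz function with a straight line is a linear functional. -/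
def S_line : Prop := ∀ (V Z : Type) [NormedAddCommGroup V] [InnerProductSpace ℝ V]
    [NormedAddCommGroup Z] [NormedSpace ℝ Z] (B : Form V Z) (u : V × Z → ℝ) (e : V) (s : ℝ),
    ‖e‖ = 1 → u 0 = 0 → (∀ (x : V × Z) (v : V), u (mul B x (v, 0)) - u x ≤ s * ‖v‖) →
    (∀ t : ℝ, u (t • e, 0) = s * t) → ∀ x, u x = s * inner ℝ e x.1

/-- The extremal map. -/
def S_ext0 : Prop := ∀ (V Z V' Z' : Type) [NormedAddCommGroup V] [InnerProductSpace ℝ V]
    [NormedAddCommGroup Z] [NormedSpace ℝ Z] [NormedAddCommGroup V'] [InnerProductSpace ℝ V']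
    [NormedAddCommGroup Z'] [NormedSpace ℝ Z'] [FiniteDimensional ℝ V] [FiniteDimensional ℝ V']
    [FiniteDimensional ℝ Z'] [Nontrivial V] (B : Form V Z) (B' : Form V' Z')
    (C : Set (V × Z → V' × Z')), IsCls B B' C → ∀ l : V' →ₗ[ℝ] ℝ,
    ∃ F ∈ C, ∃ (s : ℝ) (e : V), ‖e‖ = 1 ∧ (∀ t : ℝ, l (F (t • e, 0)).1 = s * t) ∧
      ∀ (x : V × Z) (v : V), l (F (mul B x (v, 0))).1 - l (F x).1 ≤ s * ‖v‖

/-- A class contains a map whose horizontal part is linear. -/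
def S_lin : Prop := ∀ (V Z V' Z' : Type) [NormedAddCommGroup V] [InnerProductSpace ℝ V]
    [NormedAddCommGroup Z] [NormedSpace ℝ Z] [NormedAddCommGroup V'] [InnerProductSpace ℝ V']
    [NormedAddCommGroup Z'] [NormedSpace ℝ Z'] [FiniteDimensional ℝ V] [FiniteDimensional ℝ V']
    [FiniteDimensional ℝ Z'] [Nontrivial V] (B : Form V Z) (B' : Form V' Z')
    (C : Set (V × Z → V' × Z')), IsCls B B' C →
    ∃ F ∈ C, ∃ A : V →ₗ[ℝ] V', ∀ x, (F x).1 = A x.1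

/-- A bilipschitz map with linear horizontal part is a homomorphism, hence linear on the centre. -/
def S_hom : Prop := ∀ (V Z V' Z' : Type) [NormedAddCommGroup V] [InnerProductSpace ℝ V]
    [NormedAddCommGroup Z] [NormedSpace ℝ Z] [NormedAddCommGroup V'] [InnerProductSpace ℝ V']
    [NormedAddCommGroup Z'] [NormedSpace ℝ Z'] (B : Form V Z) (B' : Form V' Z') (K : ℝ), 0 < K →
    ∀ F ∈ Cls B B' K, ∀ A : V →ₗ[ℝ] V', (∀ x, (F x).1 = A x.1) →
    Function.Injective A ∧ ∃ D : Z →ₗ[ℝ] Z', Function.Injective D ∧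
      ∀ v w, D (B.b v w) = B'.b (A v) (A w)

/-- The normalised bilipschitz maps form a class as soon as a coarse one exists. -/
def S_cls : Prop := ∀ (V Z V' Z' : Type) [NormedAddCommGroup V] [InnerProductSpace ℝ V]
    [NormedAddCommGroup Z] [NormedSpace ℝ Z] [NormedAddCommGroup V'] [InnerProductSpace ℝ V']
    [NormedAddCommGroup Z'] [NormedSpace ℝ Z'] [FiniteDimensional ℝ V']
    [FiniteDimensional ℝ Z'] (B : Form V Z) (B' : Form V' Z')
    (Φ : V × Z → V' × Z') (K C : ℝ), 0 < K →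
    (∀ x y, K⁻¹ * rho B x y - C ≤ rho B' (Φ x) (Φ y) ∧ rho B' (Φ x) (Φ y) ≤ K * rho B x y + C) →
    IsCls B B' (Cls B B' K)

/-- Rigidity: a coarse bilipschitz embedding gives an injective graded homomorphism. -/
def S_rig : Prop := ∀ (V Z V' Z' : Type) [NormedAddCommGroup V] [InnerProductSpace ℝ V]
    [NormedAddCommGroup Z] [NormedSpace ℝ Z] [NormedAddCommGroup V'] [InnerProductSpace ℝ V']
    [NormedAddCommGroup Z'] [NormedSpace ℝ Z'] [FiniteDimensional ℝ V] [FiniteDimensional ℝ V']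
    [FiniteDimensional ℝ Z'] [Nontrivial V] (B : Form V Z) (B' : Form V' Z')
    (Φ : V × Z → V' × Z') (K C : ℝ), 0 < K →
    (∀ x y, K⁻¹ * rho B x y - C ≤ rho B' (Φ x) (Φ y) ∧ rho B' (Φ x) (Φ y) ≤ K * rho B x y + C) →
    ∃ (A : V →ₗ[ℝ] V') (D : Z →ₗ[ℝ] Z'), Function.Injective A ∧ Function.Injective D ∧
      ∀ v w, D (B.b v w) = B'.b (A v) (A w)

/-- The forms of different parameters are mostly not equivalent. -/
def S_alg : Prop := ∀ θ ∈ Ioo (0 : ℝ) (1 / 2),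
    {θ' : ℝ | θ' ∈ Ioo (0 : ℝ) (1 / 2) ∧ ∃ (A : VV →ₗ[ℝ] VV) (D : ZZ →ₗ[ℝ] ZZ),
      Function.Injective A ∧ Function.Injective D ∧
      ∀ v w, D (bb θ v w) = bb θ' (A v) (A w)}.Finite

/-- Lifting along the dilations. -/
def S_lift : Prop := ∀ (V Z : Type) [NormedAddCommGroup V] [InnerProductSpace ℝ V]
    [NormedAddCommGroup Z] [NormedSpace ℝ Z] (B : Form V Z) (n : ℕ)
    (M N : Subgroup (FreeGroup (Fin n))) (A : ℕ) (T : ℝ) (h : V × Z → FreeGroup (Fin n)),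
    M.Normal → N.Normal → M ≤ N → (∀ w ∈ N, w.norm ≤ 5 * A → w ∈ M) → 0 < T →
    (∀ x y, rho B x y ≤ T → Cl N A (h x) (h y)) →
    ∃ H : V × Z → FreeGroup (Fin n), (∀ x, (h x)⁻¹ * H x ∈ N) ∧
      ∀ x y, rho B x y ≤ T → Cl M A (H x) (H y)

/-- Groups quasi-isometric to the group of a form are finitely presented. -/
def S_fp : Prop := ∀ (V Z : Type) [NormedAddCommGroup V] [InnerProductSpace ℝ V]
    [NormedAddCommGroup Z] [NormedSpace ℝ Z] (B : Form V Z) (n : ℕ)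
    (N : Subgroup (FreeGroup (Fin n))), N.Normal → QI B n N →
    ∃ S : Set (FreeGroup (Fin n)), S.Finite ∧ N = Subgroup.normalClosure S

/-- Two groups quasi-isometric to the same quotient embed coarsely. -/
def S_trans : Prop := ∀ (V Z V' Z' : Type) [NormedAddCommGroup V] [InnerProductSpace ℝ V]
    [NormedAddCommGroup Z] [NormedSpace ℝ Z] [NormedAddCommGroup V'] [InnerProductSpace ℝ V']
    [NormedAddCommGroup Z'] [NormedSpace ℝ Z'] (B : Form V Z) (B' : Form V' Z') (n : ℕ)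
    (N : Subgroup (FreeGroup (Fin n))), N.Normal → QI B n N → QI B' n N →
    ∃ (Φ : V × Z → V' × Z') (K C : ℝ), 0 < K ∧
    (∀ x y, K⁻¹ * rho B x y - C ≤ rho B' (Φ x) (Φ y) ∧ rho B' (Φ x) (Φ y) ≤ K * rho B x y + C)

/-- Some parameter has a group quasi-isometric to no quotient of a free group. -/
def S_main : Prop := ∃ (θ : ℝ) (hθ : θ ∈ Ioo (0 : ℝ) (1 / 2)), ∀ (n : ℕ)
    (N : Subgroup (FreeGroup (Fin n))), N.Normal → ¬ QI (form θ hθ) n N

/-- The integer points are coarsely dense. -/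
def S_net : Prop := ∀ (B : Form VV ZZ) (x : VV × ZZ), ∃ a : PP, rho B (io a) x ≤ 3

/-- Chains of small steps. -/
def S_chain : Prop := ∀ (θ : ℝ) (hθ : θ ∈ Ioo (0 : ℝ) (1 / 2)) (g : VV × ZZ),
    ∃ (n : ℕ) (p : ℕ → VV × ZZ), (n : ℝ) ≤ 9 * (nrm g + 1) ∧ p 0 = 0 ∧ p n = g ∧
      ∀ i, rho (form θ hθ) (p i) (p (i + 1)) ≤ 1

/-- The graph distance and the distance of the group. -/
def S_dist : Prop := ∀ (θ : ℝ) (hθ : θ ∈ Ioo (0 : ℝ) (1 / 2)),
    (XX (form θ hθ)).Connected ∧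
    (∀ a b, rho (form θ hθ) (io a) (io b) ≤ 7 * ((XX (form θ hθ)).dist a b : ℝ)) ∧
    ∃ C : ℝ, 1 ≤ C ∧ ∀ a b, ((XX (form θ hθ)).dist a b : ℝ) ≤
      C * rho (form θ hθ) (io a) (io b) + C

/-- Counting in balls. -/
def S_ball : Prop := ∀ (B : Form VV ZZ), ∃ C : ℕ, ∀ (x : VV × ZZ) (r : ℝ), 1 ≤ r →
    {a : PP | rho B x (io a) ≤ r}.Finite ∧ ({a : PP | rho B x (io a) ≤ r}.ncard : ℝ) ≤ C * r ^ 12

/-- Local finiteness and polynomial growth. -/
def S_growth : Prop := ∀ (θ : ℝ) (hθ : θ ∈ Ioo (0 : ℝ) (1 / 2)),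
    (∀ v, ((XX (form θ hθ)).neighborSet v).Finite) ∧
    (∃ (v₀ : PP) (c d : ℕ), ∀ r : ℕ,
      Set.ncard {w | (XX (form θ hθ)).dist v₀ w ≤ r} ≤ c * (r + 1) ^ d)

/-- Finite asymptotic dimension. -/
def S_asd : Prop := ∀ (θ : ℝ) (hθ : θ ∈ Ioo (0 : ℝ) (1 / 2)),
    ∃ n : ℕ, ∀ R : ℕ, ∃ (ι : Type) (U : ι → Set PP) (D : ℕ),
      (∀ i, ∀ x ∈ U i, ∀ y ∈ U i, (XX (form θ hθ)).dist x y ≤ D) ∧
      (∀ x, ∃ i, x ∈ U i) ∧
      ∀ x, {i | ∃ y ∈ U i, (XX (form θ hθ)).dist x y ≤ R}.Finite ∧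
        Set.ncard {i | ∃ y ∈ U i, (XX (form θ hθ)).dist x y ≤ R} ≤ n + 1

/-- Coarse transitivity. -/
def S_ctr : Prop := ∀ (θ : ℝ) (hθ : θ ∈ Ioo (0 : ℝ) (1 / 2)),
    ∃ K C : ℝ, 0 < K ∧ ∀ x y : PP, ∃ f : PP → PP,
      (∀ a b : PP, ((XX (form θ hθ)).dist a b : ℝ) / K - C ≤
          ((XX (form θ hθ)).dist (f a) (f b) : ℝ) ∧
        ((XX (form θ hθ)).dist (f a) (f b) : ℝ) ≤ K * ((XX (form θ hθ)).dist a b : ℝ) + C) ∧
      (∀ z : PP, ∃ a : PP, ((XX (form θ hθ)).dist (f a) z : ℝ) ≤ C) ∧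
      ((XX (form θ hθ)).dist (f x) y : ℝ) ≤ C

/-- Cayley graphs of quotients of free groups. -/
def S_cay : Prop := ∀ (H : Type) [Group H] (S : Set H), S.Finite → Subgroup.closure S = ⊤ →
    (SimpleGraph.fromRel (fun g h : H => ∃ s ∈ S, h = g * s)).Connected ∧
    ∃ (n : ℕ) (p : FreeGroup (Fin n) →* H), Function.Surjective p ∧
      ∀ (r : ℕ) (u v : FreeGroup (Fin n)),
        (SimpleGraph.fromRel (fun g h : H => ∃ s ∈ S, h = g * s)).dist (p u) (p v) ≤ r ↔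
          Cl p.ker r u v

/-- A quasi-isometry from the graph to a Cayley graph. -/
def S_from : Prop := ∀ (θ : ℝ) (hθ : θ ∈ Ioo (0 : ℝ) (1 / 2)) (H : Type) [Group H] (S : Set H),
    S.Finite → Subgroup.closure S = ⊤ →
    (∃ (φ : PP → H) (K C : ℝ), 0 < K ∧
      (∀ a b : PP,
        ((XX (form θ hθ)).dist a b : ℝ) / K - C ≤
          ((SimpleGraph.fromRel (fun g h : H => ∃ s ∈ S, h = g * s)).dist (φ a) (φ b) : ℝ) ∧
        ((SimpleGraph.fromRel (fun g h : H => ∃ s ∈ S, h = g * s)).dist (φ a) (φ b) : ℝ) ≤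
          K * ((XX (form θ hθ)).dist a b : ℝ) + C) ∧
      (∀ h : H, ∃ a : PP,
        ((SimpleGraph.fromRel (fun g h : H => ∃ s ∈ S, h = g * s)).dist (φ a) h : ℝ) ≤ C)) →
    ∃ (n : ℕ) (N : Subgroup (FreeGroup (Fin n))), N.Normal ∧ QI (form θ hθ) n N

end Pool.Agent.Q100.CT
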