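import Pool.Agent.Q100.CT.Stm

set_option autoImplicit false

namespace Pool.Agent.Q100.CT

theorem trans : S_trans := by
  intro V Z V' Z' _ _ _ _ _ _ _ _ B B' n N hN ⟨h, f, K, hK, h1, h2, h3, h4⟩
    ⟨h', f', K', hK', h1', h2', h3', h4'⟩
  have hKr : (1 : ℝ) ≤ K := by exact_mod_cast hK
  have hKr' : (1 : ℝ) ≤ K' := by exact_mod_cast hK'
  have hKK : (0 : ℝ) < K * K' := by positivity
  refine ⟨fun x => f' (h x), K * K', 2 * K * K' + K' + (K * K' + 3 * K * K' + 3 * K), hKK,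
    fun x y => ⟨?_, ?_⟩⟩
  · set r' := ⌈rho B' (f' (h x)) (f' (h y))⌉₊ with hr'
    have hr1 : rho B' (f' (h x)) (f' (h y)) ≤ r' := Nat.le_ceil _
    have hr2 : (r' : ℝ) ≤ rho B' (f' (h x)) (f' (h y)) + 1 :=
      (Nat.ceil_lt_add_one (rho_nonneg _ _ _)).le
    have c1 := h1' r' _ _ hr1
    have c2 := ((h3' (h x)).symm hN).trans hN (c1.trans hN (h3' (h y)))
    have c3 := h2 _ _ _ c2
    have t1 := rho_tri B x (f (h x)) y
    have t2 := rho_tri B (f (h x)) (f (h y)) y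
    have t3 := h4 x
    have t4 := h4 y
    rw [rho_comm] at t3
    push_cast at c3
    have hb : rho B x y ≤ K * (K' + (K' * r' + K' + K')) + K + 2 * K := by linarith
    have hb2 : rho B x y ≤ (K * K') * rho B' (f' (h x)) (f' (h y)) +
        (K * K' + 3 * K * K' + 3 * K) := by
      have : (K * K' : ℝ) * r' ≤ (K * K') * (rho B' (f' (h x)) (f' (h y)) + 1) := by gcongr
      linarith
    have hb3 : (K * K' : ℝ)⁻¹ * rho B x y ≤ rho B' (f' (h x)) (f' (h y)) +
        (K * K' : ℝ)⁻¹ * (K * K' + 3 * K * K' + 3 * K) := by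
      have := mul_le_mul_of_nonneg_left hb2 (inv_nonneg.mpr hKK.le)
      rw [mul_add, ← mul_assoc, inv_mul_cancel₀ hKK.ne', one_mul] at this
      exact this
    have hb4 : (K * K' : ℝ)⁻¹ * (K * K' + 3 * K * K' + 3 * K) ≤ K * K' + 3 * K * K' + 3 * K := by
      have hi : (K * K' : ℝ)⁻¹ ≤ 1 := inv_le_one_of_one_le₀ (one_le_mul_of_one_le_of_one_le hKr hKr')
      have hp : (0 : ℝ) ≤ K * K' + 3 * K * K' + 3 * K := by positivity
      calc _ ≤ 1 * (K * K' + 3 * K * K' + 3 * K : ℝ) := by gcongr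
        _ = _ := one_mul _
    have hp2 : (0 : ℝ) ≤ 2 * K * K' + K' := by positivity
    show (K * K' : ℝ)⁻¹ * rho B x y - _ ≤ rho B' (f' (h x)) (f' (h y))
    linarith
  · set r := ⌈rho B x y⌉₊ with hr
    have hr1 : rho B x y ≤ r := Nat.le_ceil _
    have hr2 : (r : ℝ) ≤ rho B x y + 1 := (Nat.ceil_lt_add_one (rho_nonneg _ _ _)).le
    have c1 := h1 r _ _ hr1
    have c2 := h2' _ _ _ c1
    push_cast at c2
    have : (K * K' : ℝ) * r ≤ (K * K') * (rho B x y + 1) := by gcongr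
    have hp : (0 : ℝ) ≤ K * K' + 3 * K * K' + 3 * K := by positivity
    show rho B' (f' (h x)) (f' (h y)) ≤ _
    linarith

end Pool.Agent.Q100.CT
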