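import Pool.Agent.Q100.CT.Stm

set_option autoImplicit false

namespace Pool.Agent.Q100.CT

theorem word : S_word := by
  intro V Z _ _ _ _ B P h0 hs
  -- good elements
  set G : Set (V × Z) := {x | ∀ y, P y → P (mul B x y)} with hG
  have hmul : ∀ x ∈ G, ∀ y ∈ G, mul B x y ∈ G := by
    intro x hx y hy z hz
    rw [mulA]
    exact hx _ (hy _ hz)
  have hv : ∀ v : V, ((v, 0) : V × Z) ∈ G := fun v y hy => hs v y hy
  have hc : ∀ v w : V, ((0, B.b v w) : V × Z) ∈ G := by
    intro v w
    have h := hmul _ (hmul _ (hv v) _ (hv w)) _ (hmul _ (hv (-v)) _ (hv (-w)))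
    have e : mul B (mul B (v, 0) (w, 0)) (mul B (-v, 0) (-w, 0)) = ((0, B.b v w) : V × Z) := by
      apply Prod.ext
      · simp only [mul_fst]; abel
      · simp only [mul_snd, mul_fst, map_add, map_neg, LinearMap.add_apply, LinearMap.neg_apply,
          B.alt]
        rw [b_neg B w v]
        module
    rwa [e] at h
  have hz : ∀ z : Z, ((0, z) : V × Z) ∈ G := by
    intro z
    have hmem : z ∈ Submodule.span ℝ {z | ∃ v w, B.b v w = z} := by rw [B.gen]; trivial
    have key : ∀ c : ℝ, ((0, c • z) : V × Z) ∈ G := by
      induction hmem using Submodule.span_induction with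
      | mem x hx =>
        obtain ⟨v, w, rfl⟩ := hx
        intro c
        have := hc (c • v) w
        simpa using this
      | zero =>
        intro c
        have := hc 0 0
        simpa using this
      | add x y _ _ hx hy =>
        intro c
        have := hmul _ (hx c) _ (hy c)
        have e : mul B (0, c • x) (0, c • y) = ((0, c • (x + y)) : V × Z) := by
          apply Prod.ext <;> simp
        rwa [e] at this
      | smul a x _ hx =>
        intro c
        rw [smul_smul]
        exact hx _
    simpa using key 1
  intro x
  have h := hmul _ (hv x.1) _ (hz x.2)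
  have e : mul B (x.1, 0) (0, x.2) = x := by
    apply Prod.ext <;> simp
  rw [e] at h
  have := h 0 h0
  simpa using this

end Pool.Agent.Q100.CT
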